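import Mathlib
import Pool.Agent.H29.SpecVar.Main
import Pool.Agent.H29.SpecVar.Sanity

set_option autoImplicit false

/-!
# The spectral variation constants `C_K` of commuting Hermitian `K`-tuples are finite

We prove `C_K ≤ (2 / π) (√(2 K) + √(K (K + 2)))` for every `K ≥ 1`.
-/

namespace Pool.Agent.Results.MP_434093_an.ExplicitBound

open Pool.Agent.H29.SpecVar
open scoped ENNReal

/-- Sanity check: every tuple has a list of joint eigenvalues. -/
theorem tuple_has_joint_eigenvalues {K n : ℕ} (A : Fin K → Matrix (Fin n) (Fin n) ℂ)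
    (hA : IsTuple A) : ∃ α, IsJointEigenvalues A α := exists_isJointEigenvalues A hA

/-- Sanity check: the constants are at least `1`. -/
theorem one_le_const {K : ℕ} (hK : 1 ≤ K) : 1 ≤ specConst K := one_le_specConst hK

/-- The constant `C_K` is finite for every `K ≥ 1`, with an explicit bound. -/
theorem result (K : ℕ) (hK : 1 ≤ K) :
    specConst K < ⊤ ∧
      specConst K ≤
        ENNReal.ofReal (2 / Real.pi * (Real.sqrt (2 * K) + Real.sqrt (K * (K + 2)))) := by
  have h : specConst K ≤ ENNReal.ofReal (boundConst K) := by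
    apply sInf_le
    intro n hn A B hA hB α β hα hβ
    rw [← ENNReal.ofReal_mul (boundConst_nonneg K)]
    exact ENNReal.ofReal_le_ofReal (matchDist_le hK hn A B hA hB α β hα hβ)
  exact ⟨lt_of_le_of_lt h ENNReal.ofReal_lt_top, h⟩

end Pool.Agent.Results.MP_434093_an.ExplicitBound
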